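import Pool.Agent.helper84.VN.Spec4n

/-!
# Row vn:PN4: the difference of two orbits (copy of helper43/VQ/PD4)
-/

set_option autoImplicit false

open scoped MatrixGroups ContDiff Topology UpperHalfPlane ComplexConjugate ENNReal
open UpperHalfPlane MeasureTheory Filter Set

namespace Pool.Agent.VN

open Pool.Agent.RS Pool.Agent.VQ
open Pool.Agent.VQE (nm)

theorem PN4_ent (A B : SL(2, ℝ)) : (A⁻¹ * B).1 0 0 = A.1 1 1 * B.1 0 0 - A.1 0 1 * B.1 1 0 ∧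
    (A⁻¹ * B).1 0 1 = A.1 1 1 * B.1 0 1 - A.1 0 1 * B.1 1 1 ∧
    (A⁻¹ * B).1 1 0 = -(A.1 1 0 * B.1 0 0) + A.1 0 0 * B.1 1 0 ∧
    (A⁻¹ * B).1 1 1 = -(A.1 1 0 * B.1 0 1) + A.1 0 0 * B.1 1 1 := by
  have h : (A⁻¹).1 = !![A.1 1 1, -A.1 0 1; -A.1 1 0, A.1 0 0] := by
    rw [Matrix.SpecialLinearGroup.coe_inv, Matrix.adjugate_fin_two]
  refine ⟨?_, ?_, ?_, ?_⟩ <;>
    rw [Matrix.SpecialLinearGroup.coe_mul, h, Matrix.mul_apply, Fin.sum_univ_two] <;>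
    simp [sub_eq_add_neg]

theorem PN4_XX (U : ℍ → ℝ) (E : ℝ) (g : SL(2, ℝ)) (A : Matrix (Fin 2) (Fin 2) ℝ) (i : Fin 2) :
    (A * XX U E g) i 0 = A i 0 * (rho U E g / 2) - A i 1 * (kap U E g / 2) ∧
    (A * XX U E g) i 1 = A i 0 * (kap U E g / 2) - A i 1 * (rho U E g / 2) := by
  constructor <;> rw [Matrix.mul_apply, Fin.sum_univ_two] <;> unfold XX A0 K0 <;> simp <;> ring

theorem PN4_proof : PN4_stmt := by
  intro k0 C D hD E E' t g g' hE hE' r k r' k' hr hk hr' hk'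
  have ha : ∀ i, HasDerivAt (fun s => (D.fl E s g).1 i 0)
      ((D.fl E t g).1 i 0 * (r / 2) - (D.fl E t g).1 i 1 * (k / 2)) t := by
    intro i
    have h := hD.der E t g hE i 0
    rw [(PN4_XX _ _ _ _ _).1, ← hr, ← hk] at h
    exact h
  have hb : ∀ i, HasDerivAt (fun s => (D.fl E s g).1 i 1)
      ((D.fl E t g).1 i 0 * (k / 2) - (D.fl E t g).1 i 1 * (r / 2)) t := by
    intro i
    have h := hD.der E t g hE i 1
    rw [(PN4_XX _ _ _ _ _).2, ← hr, ← hk] at h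
    exact h
  have ha' : ∀ i, HasDerivAt (fun s => (D.fl E' s g').1 i 0)
      ((D.fl E' t g').1 i 0 * (r' / 2) - (D.fl E' t g').1 i 1 * (k' / 2)) t := by
    intro i
    have h := hD.der E' t g' hE' i 0
    rw [(PN4_XX _ _ _ _ _).1, ← hr', ← hk'] at h
    exact h
  have hb' : ∀ i, HasDerivAt (fun s => (D.fl E' s g').1 i 1)
      ((D.fl E' t g').1 i 0 * (k' / 2) - (D.fl E' t g').1 i 1 * (r' / 2)) t := by
    intro i
    have h := hD.der E' t g' hE' i 1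
    rw [(PN4_XX _ _ _ _ _).2, ← hr', ← hk'] at h
    exact h
  have hX : ∀ s, (Xt D E E' g g' s).1 0 0 = (D.fl E s g).1 1 1 * (D.fl E' s g').1 0 0 - (D.fl E s g).1 0 1 * (D.fl E' s g').1 1 0 ∧
    (Xt D E E' g g' s).1 0 1 = (D.fl E s g).1 1 1 * (D.fl E' s g').1 0 1 - (D.fl E s g).1 0 1 * (D.fl E' s g').1 1 1 ∧
    (Xt D E E' g g' s).1 1 0 = -((D.fl E s g).1 1 0 * (D.fl E' s g').1 0 0) + (D.fl E s g).1 0 0 * (D.fl E' s g').1 1 0 ∧
    (Xt D E E' g g' s).1 1 1 = -((D.fl E s g).1 1 0 * (D.fl E' s g').1 0 1) + (D.fl E s g).1 0 0 * (D.fl E' s g').1 1 1 :=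
    fun s => PN4_ent _ _
  have e00 : (fun s => (Xt D E E' g g' s).1 0 0) =
      fun s => (D.fl E s g).1 1 1 * (D.fl E' s g').1 0 0 - (D.fl E s g).1 0 1 * (D.fl E' s g').1 1 0 :=
    funext fun s => (hX s).1
  have e01 : (fun s => (Xt D E E' g g' s).1 0 1) =
      fun s => (D.fl E s g).1 1 1 * (D.fl E' s g').1 0 1 - (D.fl E s g).1 0 1 * (D.fl E' s g').1 1 1 :=
    funext fun s => (hX s).2.1
  have e10 : (fun s => (Xt D E E' g g' s).1 1 0) =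
      fun s => -((D.fl E s g).1 1 0 * (D.fl E' s g').1 0 0) + (D.fl E s g).1 0 0 * (D.fl E' s g').1 1 0 :=
    funext fun s => (hX s).2.2.1
  have e11 : (fun s => (Xt D E E' g g' s).1 1 1) =
      fun s => -((D.fl E s g).1 1 0 * (D.fl E' s g').1 0 1) + (D.fl E s g).1 0 0 * (D.fl E' s g').1 1 1 :=
    funext fun s => (hX s).2.2.2
  obtain ⟨x00, x01, x10, x11⟩ := hX t
  rw [e00, e01, e10, e11, x00, x01, x10, x11]
  refine ⟨?_, ?_, ?_, ?_⟩
  · refine (((hb 1).mul (ha' 0)).sub ((hb 0).mul (ha' 1))).congr_deriv ?_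
    ring
  · refine (((hb 1).mul (hb' 0)).sub ((hb 0).mul (hb' 1))).congr_deriv ?_
    ring
  · refine (((ha 1).mul (ha' 0)).neg.add ((ha 0).mul (ha' 1))).congr_deriv ?_
    ring
  · refine (((ha 1).mul (hb' 0)).neg.add ((ha 0).mul (hb' 1))).congr_deriv ?_
    ring

end Pool.Agent.VN
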